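import Pool.Agent.helper73.AD.Basic

/-!
Project ad, module BX: position of the box coordinate `y = om w.e z`.
-/

namespace Pool.Agent.helper73.AD

open scoped BigOperators Topology

theorem BX_cosh_lower {a b : ℝ} (ha : 0 ≤ a) (hab : a ≤ b) :
    Real.sinh (b / 2) * (b - a) ≤ Real.cosh b - Real.cosh a := by
  have h1 : Real.cosh b - Real.cosh a = 2 * (Real.sinh ((b + a) / 2) * Real.sinh ((b - a) / 2)) := by
    have e1 : Real.cosh b = Real.cosh ((b + a) / 2 + (b - a) / 2) := by ring_nf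
    have e2 : Real.cosh a = Real.cosh ((b + a) / 2 - (b - a) / 2) := by ring_nf
    rw [e1, e2, Real.cosh_add, Real.cosh_sub]; ring
  have h2 : (b - a) / 2 ≤ Real.sinh ((b - a) / 2) :=
    Real.self_le_sinh_iff.2 (by linarith)
  have h3 : Real.sinh (b / 2) ≤ Real.sinh ((b + a) / 2) :=
    Real.sinh_le_sinh.2 (by linarith)
  have h4 : 0 ≤ Real.sinh (b / 2) := Real.sinh_nonneg_iff.2 (by linarith)
  rw [h1]
  have h5 : Real.sinh (b / 2) * ((b - a) / 2) ≤
      Real.sinh ((b + a) / 2) * Real.sinh ((b - a) / 2) :=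
    mul_le_mul h3 h2 (by linarith) (le_trans h4 h3)
  linarith

theorem BX_cosh_upper {a b : ℝ} (ha : 0 ≤ a) (hab : a ≤ b) :
    Real.cosh b - Real.cosh a ≤ Real.sinh b * (b - a) := by
  set t : ℝ := b - a with ht
  have ha' : a = b - t := by rw [ht]; ring
  rw [ha', Real.cosh_sub]
  have hb0 : 0 ≤ Real.sinh b := Real.sinh_nonneg_iff.2 (by linarith)
  have h1 : Real.cosh t - Real.sinh t = Real.exp (-t) := by
    rw [Real.cosh_eq, Real.sinh_eq]; ring
  have h2 := Real.add_one_le_exp (-t)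
  have h3 : 1 ≤ Real.cosh t := Real.one_le_cosh t
  have h4 : Real.sinh b < Real.cosh b := Real.sinh_lt_cosh b
  have h5 : Real.sinh b * (Real.cosh t - 1) ≤ Real.cosh b * (Real.cosh t - 1) :=
    mul_le_mul_of_nonneg_right h4.le (by linarith)
  have h6 : Real.sinh b * (Real.sinh t - t) ≤ Real.sinh b * (Real.cosh t - 1) :=
    mul_le_mul_of_nonneg_left (by linarith) hb0
  linarith

theorem BX_core {Y lP Wm l : ℝ} (hl : 0 < l)
    (hF : 2 * Real.cosh (l / 2) = 2 * Real.exp lP * Real.cosh (Y / 2) + Wm)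
    (hlP : 0 < lP) (hWm : 0 ≤ Wm) :
    |Y| ≤ l ∧ ((Real.exp lP - 1) + Wm ≤ (l - |Y|) * Real.sinh (l / 2)) ∧
    l - |Y| ≤ 2 * Real.cosh (l / 2) / Real.sinh (l / 4) * ((Real.exp lP - 1) + Wm) := by
  have hE : 1 < Real.exp lP := Real.one_lt_exp_iff.2 hlP
  have hc1 : 1 ≤ Real.cosh (Y / 2) := Real.one_le_cosh _
  have h1 : Real.cosh (l / 2) - Real.cosh (Y / 2)
      = (Real.exp lP - 1) * Real.cosh (Y / 2) + Wm / 2 := by linarith
  have h2 : Real.cosh (Y / 2) ≤ Real.cosh (l / 2) := by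
    have : 0 ≤ (Real.exp lP - 1) * Real.cosh (Y / 2) := mul_nonneg (by linarith) (by linarith)
    linarith
  have habs : |Y / 2| ≤ |l / 2| := Real.cosh_le_cosh.1 h2
  have hY : |Y| ≤ l := by
    rw [abs_div, abs_div, abs_of_pos hl] at habs
    have : |(2 : ℝ)| = 2 := by norm_num
    rw [this] at habs
    linarith
  have hcY : Real.cosh (Y / 2) = Real.cosh (|Y| / 2) := by
    have : |Y| / 2 = |Y / 2| := by rw [abs_div]; norm_num
    rw [this, Real.cosh_abs]
  have hlo := BX_cosh_lower (a := |Y| / 2) (b := l / 2) (by positivity) (by linarith)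
  have hup := BX_cosh_upper (a := |Y| / 2) (b := l / 2) (by positivity) (by linarith)
  rw [← hcY] at hlo hup
  refine ⟨hY, ?_, ?_⟩
  · have h3 : (Real.exp lP - 1) ≤ (Real.exp lP - 1) * Real.cosh (Y / 2) :=
      le_mul_of_one_le_right (by linarith) hc1
    have h4 : Real.sinh (l / 2) * (l / 2 - |Y| / 2) = (l - |Y|) * Real.sinh (l / 2) / 2 := by ring
    rw [h4] at hup
    linarith
  · have hs : 0 < Real.sinh (l / 4) := Real.sinh_pos_iff.2 (by linarith)
    have h5 : l / 2 / 2 = l / 4 := by ring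
    rw [h5] at hlo
    rw [div_mul_eq_mul_div, le_div_iff₀ hs]
    have h6 : (Real.exp lP - 1) * Real.cosh (Y / 2) ≤ (Real.exp lP - 1) * Real.cosh (l / 2) :=
      mul_le_mul_of_nonneg_left h2 (by linarith)
    have h7 : Wm / 2 ≤ Wm * Real.cosh (l / 2) := by
      have := Real.one_le_cosh (l / 2)
      nlinarith
    nlinarith

theorem BX_of (hBF : BF_stmt) (hEU : EU_stmt) : BX_stmt := by
  intro J _ _ w l hl
  have hs : 0 < Real.sinh (l / 4) := Real.sinh_pos_iff.2 (by linarith)
  have hs2 : 0 < Real.sinh (l / 2) := Real.sinh_pos_iff.2 (by linarith)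
  have he : Real.exp (-(l / 2)) < 1 := Real.exp_lt_one_iff.2 (by linarith)
  have hch : 0 < Real.cosh (l / 2) := Real.cosh_pos _
  set K1 : ℝ := 2 * Real.cosh (l / 2) / Real.sinh (l / 4)
    * ((Real.exp (l / 2) + (w.n + 1)) * Real.sinh (l / 2)) with hK1
  set K2 : ℝ := 2 * l * Real.sinh (l / 2) / (1 - Real.exp (-(l / 2))) with hK2
  have hK1p : 0 < K1 := by
    have : (0 : ℝ) < Real.exp (l / 2) + (w.n + 1) := by positivity
    positivity
  have hK2p : 0 < K2 := by
    have : 0 < 1 - Real.exp (-(l / 2)) := by linarith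
    positivity
  refine ⟨K1 + K2, by positivity, ?_⟩
  intro z hz hH
  obtain ⟨-, -, hF2, hWt, hWf, hF, hlP, -, hWm, hsumt, hsumf, hct, -, hom⟩ := hBF J w z hz
  rw [hH] at hF2 hsumt hsumf
  rw [hF] at hF2
  obtain ⟨hY, h3, h4⟩ := BX_core hl hF2 hlP hWm
  have hepsdef : w.eps z = (Real.exp (w.lP z) - 1) + w.Wm z := rfl
  rw [← hepsdef] at h3 h4
  obtain ⟨hEU1, hEU2⟩ : (∀ ϑ : ℝ, (∀ i, 1 - w.ct i z ≤ ϑ) → w.eps z ≤
      (Real.exp (l / 2) + (w.n + 1)) * Real.sinh (l / 2) * ϑ) ∧
      (∀ ϑ : ℝ, (∀ i, 1 + w.ct i z ≤ ϑ) → w.eps z ≤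
      (Real.exp (l / 2) + (w.n + 1)) * Real.sinh (l / 2) * ϑ) := by
    constructor
    · intro ϑ h
      have := (hEU J w z hz ϑ).1 h
      rwa [hH] at this
    · intro ϑ h
      have := (hEU J w z hz ϑ).2 h
      rwa [hH] at this
  have hcoef : 0 ≤ 2 * Real.cosh (l / 2) / Real.sinh (l / 4) := by positivity
  have hWpos : ∀ σ, 0 < w.W σ z := fun σ => Real.exp_pos _
  have hYe : |om w.e z| = |w.Y z| := by rw [hom, abs_neg]
  refine ⟨?_, ?_, ?_⟩
  · intro ϑ hϑ
    have hϑ0 : 0 < ϑ := by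
      have h5 := hϑ 0
      have h6 := (abs_lt.1 (hct 0)).2
      linarith
    rw [hom]
    rcases le_total 0 (w.Y z) with hc | hc
    · -- W_true >= 1
      have h5 : 1 ≤ w.W (fun _ => true) z := by
        rw [hWt]
        exact Real.one_le_exp_iff.2 (by linarith)
      have h6 : w.W (fun _ => true) z ≤ ∑ σ : Fin (w.n + 1) → Bool,
          (if σ 0 = true then w.W σ z else 0) := by
        have h7 := Finset.single_le_sum (f := fun σ : Fin (w.n + 1) → Bool =>
          if σ 0 = true then w.W σ z else 0) (s := Finset.univ)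
          (fun σ _ => by
            by_cases hσ : σ 0 = true
            · simp only [hσ, if_true]; exact (hWpos σ).le
            · simp only [hσ]; exact le_refl _) (Finset.mem_univ (fun _ => true))
        simpa using h7
      rw [hsumt 0] at h6
      have h8 : 1 - Real.exp (-(l / 2)) ≤ Real.sinh (l / 2) * ϑ := by
        have h9 : Real.sinh (l / 2) * (1 - w.ct 0 z) ≤ Real.sinh (l / 2) * ϑ :=
          mul_le_mul_of_nonneg_left (hϑ 0) hs2.le
        linarith
      have h10 : 2 * l ≤ K2 * ϑ := by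
        rw [hK2, div_mul_eq_mul_div, le_div_iff₀ (by linarith)]
        nlinarith
      have h11 : w.Y z ≤ l := (abs_le.1 hY).2
      nlinarith [mul_pos hK1p hϑ0]
    · have h5 : |w.Y z| = -w.Y z := abs_of_nonpos hc
      rw [h5] at h4
      have h6 := mul_le_mul_of_nonneg_left (hEU1 ϑ hϑ) hcoef
      have h7 : 2 * Real.cosh (l / 2) / Real.sinh (l / 4) *
          ((Real.exp (l / 2) + (w.n + 1)) * Real.sinh (l / 2) * ϑ) = K1 * ϑ := by
        rw [hK1]; ring
      rw [h7] at h6
      nlinarith [mul_pos hK2p hϑ0]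
  · intro ϑ hϑ
    have hϑ0 : 0 < ϑ := by
      have h5 := hϑ 0
      have h6 := (abs_lt.1 (hct 0)).1
      linarith
    rw [hom]
    rcases le_total 0 (w.Y z) with hc | hc
    · have h5 : |w.Y z| = w.Y z := abs_of_nonneg hc
      rw [h5] at h4
      have h6 := mul_le_mul_of_nonneg_left (hEU2 ϑ hϑ) hcoef
      have h7 : 2 * Real.cosh (l / 2) / Real.sinh (l / 4) *
          ((Real.exp (l / 2) + (w.n + 1)) * Real.sinh (l / 2) * ϑ) = K1 * ϑ := by
        rw [hK1]; ring
      rw [h7] at h6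
      nlinarith [mul_pos hK2p hϑ0]
    · have h5 : 1 ≤ w.W (fun _ => false) z := by
        rw [hWf]
        exact Real.one_le_exp_iff.2 (by linarith)
      have h6 : w.W (fun _ => false) z ≤ ∑ σ : Fin (w.n + 1) → Bool,
          (if σ 0 = false then w.W σ z else 0) := by
        have h7 := Finset.single_le_sum (f := fun σ : Fin (w.n + 1) → Bool =>
          if σ 0 = false then w.W σ z else 0) (s := Finset.univ)
          (fun σ _ => by
            by_cases hσ : σ 0 = false
            · simp only [hσ, if_true]; exact (hWpos σ).le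
            · simp only [hσ]; exact le_refl _) (Finset.mem_univ (fun _ => false))
        simpa using h7
      rw [hsumf 0] at h6
      have h8 : 1 - Real.exp (-(l / 2)) ≤ Real.sinh (l / 2) * ϑ := by
        have h9 : Real.sinh (l / 2) * (1 + w.ct 0 z) ≤ Real.sinh (l / 2) * ϑ :=
          mul_le_mul_of_nonneg_left (hϑ 0) hs2.le
        linarith
      have h10 : 2 * l ≤ K2 * ϑ := by
        rw [hK2, div_mul_eq_mul_div, le_div_iff₀ (by linarith)]
        nlinarith
      have h11 : -l ≤ w.Y z := (abs_le.1 hY).1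
      nlinarith [mul_pos hK1p hϑ0]
  · rw [hYe]; exact h3

end Pool.Agent.helper73.AD
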