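import Pool.Agent.helper73.AD.Basic

/-!
Project ad, module SB: every family of beta twists is a family of the abstract system.
-/

namespace Pool.Agent.helper73.AD

open scoped BigOperators Topology

variable {J K : Type} [Fintype J] [DecidableEq J] [Fintype K] [DecidableEq K]

/-- derivative of the family along a line through the origin -/
theorem SB_line (S : Sys J K) (Z : (K → ℝ) → PS J)
    (dZ : ∀ T, HasFDerivAt Z (∑ k, (ContinuousLinearMap.proj k : (K → ℝ) →L[ℝ] ℝ).smulRight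
      (S.X k (Z T))) T) (τ : K → ℝ) (s : ℝ) :
    HasDerivAt (fun s : ℝ => Z (s • τ)) (S.Xv τ (Z (s • τ))) s := by
  have h1 : HasDerivAt (fun s : ℝ => s • τ) τ s := by
    simpa using (hasDerivAt_id s).smul_const τ
  have h2 := (dZ (s • τ)).comp_hasDerivAt s h1
  refine h2.congr_deriv ?_
  simp only [Sys.Xv, sum_apply, ContinuousLinearMap.smulRight_apply,
    ContinuousLinearMap.proj_apply]

/-- the Hamiltonian fields are pairwise orthogonal on the family -/
theorem SB_iso (S : Sys J K) (Z : (K → ℝ) → PS J) (mem : ∀ T, Z T ∈ Cone J)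
    (dZ : ∀ T, HasFDerivAt Z (∑ k, (ContinuousLinearMap.proj k : (K → ℝ) →L[ℝ] ℝ).smulRight
      (S.X k (Z T))) T) (lev : K → ℝ) (level : ∀ T k, S.H k (Z T) = lev k)
    (T : K → ℝ) (k m : K) : om (S.X k (Z T)) (S.X m (Z T)) = 0 := by
  rw [om_X]
  have h1 : HasFDerivAt (S.H k) (fderiv ℝ (S.H k) (Z T)) (Z T) :=
    ((contDiffAt_H S k (mem T)).differentiableAt (by norm_num)).hasFDerivAt
  have h2 := h1.comp T (dZ T)
  have h3 : HasFDerivAt (S.H k ∘ Z) (0 : (K → ℝ) →L[ℝ] ℝ) T := by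
    have h4 : (S.H k ∘ Z) = fun _ => lev k := funext fun T => level T k
    rw [h4]
    exact hasFDerivAt_const _ _
  have h4 := h2.unique h3
  have h5 := DFunLike.congr_fun h4 (Pi.single m 1)
  simp only [ContinuousLinearMap.comp_apply, sum_apply,
    ContinuousLinearMap.smulRight_apply, ContinuousLinearMap.proj_apply,
    zero_apply] at h5
  have h6 : ∑ x : K, (Pi.single m (1 : ℝ) : K → ℝ) x • S.X x (Z T) = S.X m (Z T) := by
    rw [Finset.sum_eq_single m]
    · simp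
    · intro b _ hb
      simp [hb]
    · simp
  rwa [h6] at h5

/-- the limit directions are isotropic -/
theorem SB_isoe (S : Sys J K) (Z : (K → ℝ) → PS J)
    (iso : ∀ T k m, om (S.X k (Z T)) (S.X m (Z T)) = 0) (C : ℝ) (hC : 0 < C)
    (ep : ∀ T k, ‖S.X k (Z T) - S.e k‖ ≤ C * Real.exp (-(T k))) (k m : K) :
    om (S.e k) (S.e m) = 0 := by
  set c : ℝ := 2 * Fintype.card J with hc
  have hc0 : 0 ≤ c := by positivity
  set M : ℝ := c * C * ‖S.e m‖ + c * (‖S.e k‖ + C) * C with hM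
  have hM0 : 0 ≤ M := by positivity
  have key : ∀ s : ℝ, 0 ≤ s → |om (S.e k) (S.e m)| ≤ M * Real.exp (-s) := by
    intro s hs
    set T : K → ℝ := fun _ => s
    have h1 := ep T k
    have h2 := ep T m
    have h3 : om (S.e k) (S.e m) = -(om (S.X k (Z T) - S.e k) (S.e m))
        - om (S.X k (Z T)) (S.X m (Z T) - S.e m) := by
      rw [om_sub_left, om_sub_right, iso T k m]; ring
    have h4 := abs_om_le (S.X k (Z T) - S.e k) (S.e m)
    have h5 := abs_om_le (S.X k (Z T)) (S.X m (Z T) - S.e m)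
    have hexp : Real.exp (-s) ≤ 1 := Real.exp_le_one_iff.2 (by linarith)
    have hexp0 : 0 < Real.exp (-s) := Real.exp_pos _
    have h6 : ‖S.X k (Z T)‖ ≤ ‖S.e k‖ + C := by
      have h7 : S.X k (Z T) = (S.X k (Z T) - S.e k) + S.e k := by abel
      have h8 : ‖S.X k (Z T)‖ ≤ ‖S.X k (Z T) - S.e k‖ + ‖S.e k‖ := by
        calc ‖S.X k (Z T)‖ = ‖(S.X k (Z T) - S.e k) + S.e k‖ := by rw [← h7]
          _ ≤ _ := norm_add_le _ _
      have h9 : C * Real.exp (-s) ≤ C := by nlinarith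
      have h10 : ‖S.X k (Z T) - S.e k‖ ≤ C * Real.exp (-s) := h1
      linarith
    have h7 : |om (S.X k (Z T) - S.e k) (S.e m)| ≤ c * (C * Real.exp (-s)) * ‖S.e m‖ :=
      h4.trans (mul_le_mul_of_nonneg_right (mul_le_mul_of_nonneg_left h1 hc0) (norm_nonneg _))
    have h8 : |om (S.X k (Z T)) (S.X m (Z T) - S.e m)|
        ≤ c * (‖S.e k‖ + C) * (C * Real.exp (-s)) :=
      h5.trans (mul_le_mul (mul_le_mul_of_nonneg_left h6 hc0) h2 (norm_nonneg _) (by positivity))
    rw [h3]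
    calc |-(om (S.X k (Z T) - S.e k) (S.e m)) - om (S.X k (Z T)) (S.X m (Z T) - S.e m)|
        ≤ |-(om (S.X k (Z T) - S.e k) (S.e m))| + |om (S.X k (Z T)) (S.X m (Z T) - S.e m)| :=
          abs_sub _ _
      _ ≤ c * (C * Real.exp (-s)) * ‖S.e m‖ + c * (‖S.e k‖ + C) * (C * Real.exp (-s)) := by
          rw [abs_neg]; exact add_le_add h7 h8
      _ = M * Real.exp (-s) := by rw [hM]; ring
  by_contra hne
  have hpos : 0 < |om (S.e k) (S.e m)| := abs_pos.2 hne
  have hlim : Filter.Tendsto (fun s : ℝ => M * Real.exp (-s)) Filter.atTop (𝓝 (M * 0)) :=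
    (Real.tendsto_exp_neg_atTop_nhds_zero).const_mul M
  rw [mul_zero] at hlim
  have h1 : ∀ᶠ s : ℝ in Filter.atTop, M * Real.exp (-s) < |om (S.e k) (S.e m)| :=
    hlim.eventually (gt_mem_nhds hpos)
  obtain ⟨s, hs1, hs2⟩ := (h1.and (Filter.eventually_ge_atTop 0)).exists
  exact absurd (key s hs2) (not_le.2 hs1)

/-- the family stays at bounded distance from its asymptotic line -/
theorem SB_asym (S : Sys J K) (Z : (K → ℝ) → PS J)
    (dZ : ∀ T, HasFDerivAt Z (∑ k, (ContinuousLinearMap.proj k : (K → ℝ) →L[ℝ] ℝ).smulRight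
      (S.X k (Z T))) T) (C : ℝ) (hC : 0 < C)
    (ep : ∀ T k, ‖S.X k (Z T) - S.e k‖ ≤ C * Real.exp (-(T k)))
    (τ : K → ℝ) (hτ : ∀ k, 0 < τ k) (s : ℝ) (hs : 0 ≤ s) :
    ‖Z (s • τ) - s • S.ev τ‖ ≤ ‖Z 0‖ + Fintype.card K * C := by
  set f : ℝ → PS J := fun s => Z (s • τ) - s • S.ev τ with hf
  set f' : ℝ → PS J := fun s => S.Xv τ (Z (s • τ)) - S.ev τ with hf'
  set B : ℝ → ℝ := fun s => ‖Z 0‖ + ∑ k, C * (1 - Real.exp (-(s * τ k))) with hB
  set B' : ℝ → ℝ := fun s => ∑ k, C * (τ k * Real.exp (-(s * τ k))) with hB'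
  have hd : ∀ x, HasDerivAt f (f' x) x := by
    intro x
    have h1 := SB_line S Z dZ τ x
    have h2 : HasDerivAt (fun s : ℝ => s • S.ev τ) (S.ev τ) x := by
      simpa using (hasDerivAt_id x).smul_const (S.ev τ)
    exact h1.sub h2
  have hBd : ∀ x, HasDerivAt B (B' x) x := by
    intro x
    have h1 : ∀ k ∈ (Finset.univ : Finset K), HasDerivAt
        (fun s : ℝ => C * (1 - Real.exp (-(s * τ k)))) (C * (τ k * Real.exp (-(x * τ k)))) x := by
      intro k _
      have h2 : HasDerivAt (fun s : ℝ => -(s * τ k)) (-(1 * τ k)) x :=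
        ((hasDerivAt_id x).mul_const (τ k)).neg
      have h3 := ((h2.exp).const_sub 1).const_mul C
      refine h3.congr_deriv ?_
      ring
    exact (HasDerivAt.fun_sum h1).const_add ‖Z 0‖
  have hbound : ∀ x ∈ Set.Ico (0 : ℝ) s, ‖f' x‖ ≤ B' x := by
    intro x hx
    have h1 : f' x = ∑ k, τ k • (S.X k (Z (x • τ)) - S.e k) := by
      simp only [hf', Sys.Xv, Sys.ev, smul_sub, Finset.sum_sub_distrib]
    rw [h1]
    refine (norm_sum_le _ _).trans (Finset.sum_le_sum fun k _ => ?_)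
    rw [norm_smul, Real.norm_of_nonneg (hτ k).le]
    have h2 := ep (x • τ) k
    have h3 : (x • τ) k = x * τ k := by simp
    rw [h3] at h2
    calc τ k * ‖S.X k (Z (x • τ)) - S.e k‖ ≤ τ k * (C * Real.exp (-(x * τ k))) :=
          mul_le_mul_of_nonneg_left h2 (hτ k).le
      _ = C * (τ k * Real.exp (-(x * τ k))) := by ring
  have h0 : ‖f 0‖ ≤ B 0 := by
    simp [hf, hB]
  have hmain := image_norm_le_of_norm_deriv_right_le_deriv_boundary (f := f) (f' := f')
    (a := 0) (b := s) (fun x _ => (hd x).continuousAt.continuousWithinAt)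
    (fun x _ => (hd x).hasDerivWithinAt) h0 hBd hbound (Set.right_mem_Icc.2 hs)
  refine hmain.trans ?_
  simp only [hB]
  have h5 : ∑ k : K, C * (1 - Real.exp (-(s * τ k))) ≤ ∑ _k : K, C := by
    refine Finset.sum_le_sum fun k _ => ?_
    have := Real.exp_pos (-(s * τ k))
    nlinarith
  rw [Finset.sum_const, Finset.card_univ, nsmul_eq_mul] at h5
  linarith

/-- all estimates for one curve -/
theorem SB_one (hBF : BF_stmt) (hEU : EU_stmt) (hEL : EL_stmt) (hBX : BX_stmt) (hXA : XA_stmt)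
    (hHB : HB_stmt) (D : AData J K) (Φ : Family D) (k : K) :
    ∃ C : ℝ, 0 < C ∧ ∀ T : K → ℝ,
      ‖sg (fderiv ℝ (D.w k).H (Φ.Z T)) - (D.w k).e‖ ≤ C * Real.exp (-(T k)) ∧
      ‖sg (fderiv ℝ (D.w k).H (Φ.Z T)) + (D.w k).e‖ ≤ C * Real.exp (T k) ∧
      (∀ x y, |hs (D.w k).H (Φ.Z T) x y| ≤ C * Real.exp (-|T k|) * ‖x‖ * ‖y‖) ∧
      Φ.lev k - om (D.w k).e (Φ.Z T) ≤ C * Real.exp (-(T k)) ∧
      Φ.lev k + om (D.w k).e (Φ.Z T) ≤ C * Real.exp (T k) ∧
      (D.w k).eps (Φ.Z T) ≤ C * Real.exp (-|T k|) ∧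
      Real.exp (-|T k|) ≤ C * (D.w k).eps (Φ.Z T) := by
  set l : ℝ := Φ.lev k with hldef
  have hl : 0 < l := by
    have h1 := (hBF J (D.w k) (Φ.Z 0) (Φ.mem 0)).2.1
    rwa [Φ.level 0 k] at h1
  obtain ⟨CX, hCX, hX⟩ := hXA J (D.w k) l hl
  obtain ⟨CH, hCH, hH⟩ := hHB J (D.w k) l hl
  obtain ⟨CB, hCB, hB⟩ := hBX J (D.w k) l hl
  obtain ⟨CE, hCE, hE⟩ := hEL J l hl
  have hct : ∀ T i, |(D.w k).ct i (Φ.Z T)| < 1 := fun T i =>
    (hBF J (D.w k) (Φ.Z T) (Φ.mem T)).2.2.2.2.2.2.2.2.2.2.2.1 i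
  have hC1 : 0 < Φ.C1 := by
    have h1 := Φ.ang1 0 k 0
    have h2 := (abs_lt.1 (hct 0 0)).2
    simp at h1
    linarith
  have hs2 : 0 < Real.sinh (l / 2) := Real.sinh_pos_iff.2 (by linarith)
  set E : ℝ := (Real.exp (l / 2) + ((D.w k).n + 1)) * Real.sinh (l / 2) with hEdef
  have hE0 : 0 < E := by
    have : (0 : ℝ) < Real.exp (l / 2) + ((D.w k).n + 1) := by positivity
    positivity
  set C1 : ℝ := Φ.C1 with hC1def
  have hc1 := Φ.c1_pos
  refine ⟨CX * C1 + CH * (E * C1) + CB * C1 + E * C1 + CE / Φ.c1, by positivity, ?_⟩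
  intro T
  set z : PS J := Φ.Z T with hz
  have hzC : z ∈ Cone J := Φ.mem T
  have hHz : (D.w k).H z = l := Φ.level T k
  have a1 : ∀ i, 1 - (D.w k).ct i z ≤ C1 * Real.exp (-(T k)) := Φ.ang1 T k
  have a2 : ∀ i, 1 + (D.w k).ct i z ≤ C1 * Real.exp (T k) := Φ.ang2 T k
  have e1 : (D.w k).eps z ≤ E * (C1 * Real.exp (-(T k))) := by
    have := (hEU J (D.w k) z hzC _).1 a1
    rwa [hHz] at this
  have e2 : (D.w k).eps z ≤ E * (C1 * Real.exp (T k)) := by
    have := (hEU J (D.w k) z hzC _).2 a2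
    rwa [hHz] at this
  have e3 : (D.w k).eps z ≤ E * C1 * Real.exp (-|T k|) := by
    rcases le_total 0 (T k) with h | h
    · rw [abs_of_nonneg h]; linarith
    · rw [abs_of_nonpos h, neg_neg]; linarith
  have e4 : Real.exp (-|T k|) ≤ CE / Φ.c1 * (D.w k).eps z := by
    have h1 := Φ.ang3 T k 0
    have h2 := hE (D.w k) z hzC hHz 0
    rw [div_mul_eq_mul_div, le_div_iff₀ hc1]
    have h3 : Φ.c1 * Real.exp (-|T k|) ≤ CE * (D.w k).eps z := h1.trans h2
    linarith
  have heps : 0 < (D.w k).eps z := by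
    have h1 := Real.exp_pos (-|T k|)
    have h2 : 0 < CE / Φ.c1 := by positivity
    by_contra hcon
    have h3 : CE / Φ.c1 * (D.w k).eps z ≤ 0 := mul_nonpos_of_nonneg_of_nonpos h2.le (not_lt.1 hcon)
    linarith
  have p1 : 0 < CX * C1 := by positivity
  have p2 : 0 < CH * (E * C1) := by positivity
  have p3 : 0 < CB * C1 := by positivity
  have p4 : 0 < E * C1 := by positivity
  have p5 : 0 < CE / Φ.c1 := by positivity
  have x1 := (hX z hzC hHz).1 _ a1
  have x2 := (hX z hzC hHz).2 _ a2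
  obtain ⟨b1, b2, -⟩ := hB z hzC hHz
  have y1 := b1 _ a1
  have y2 := b2 _ a2
  have g1 := Real.exp_pos (-(T k))
  have g2 := Real.exp_pos (T k)
  have g3 := Real.exp_pos (-|T k|)
  refine ⟨?_, ?_, ?_, ?_, ?_, ?_, ?_⟩
  · refine x1.trans ?_
    nlinarith [mul_pos p2 g1, mul_pos p3 g1, mul_pos p4 g1, mul_pos p5 g1]
  · refine x2.trans ?_
    nlinarith [mul_pos p2 g2, mul_pos p3 g2, mul_pos p4 g2, mul_pos p5 g2]
  · intro x y
    refine (hH z hzC hHz x y).trans ?_
    refine mul_le_mul_of_nonneg_right (mul_le_mul_of_nonneg_right ?_ (norm_nonneg x))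
      (norm_nonneg y)
    have h1 : CH * (D.w k).eps z ≤ CH * (E * C1 * Real.exp (-|T k|)) :=
      mul_le_mul_of_nonneg_left e3 hCH.le
    nlinarith [mul_pos p1 g3, mul_pos p3 g3, mul_pos p4 g3, mul_pos p5 g3]
  · refine y1.trans ?_
    nlinarith [mul_pos p1 g1, mul_pos p2 g1, mul_pos p4 g1, mul_pos p5 g1]
  · refine y2.trans ?_
    nlinarith [mul_pos p1 g2, mul_pos p2 g2, mul_pos p4 g2, mul_pos p5 g2]
  · refine e3.trans ?_
    nlinarith [mul_pos p1 g3, mul_pos p2 g3, mul_pos p3 g3, mul_pos p5 g3]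
  · refine e4.trans ?_
    nlinarith [mul_pos p1 heps, mul_pos p2 heps, mul_pos p3 heps, mul_pos p4 heps]

/-- slopes of the Hamiltonians in positive combinations of the limit directions -/
theorem SB_slope (hSL : SL_stmt) (D : AData J K) (S : Sys J K)
    (hH : ∀ k, S.H k = (D.w k).H) (he : ∀ k, S.e k = (D.w k).e) (Φ : Family D)
    (C : ℝ) (hC : 0 < C)
    (ep : ∀ T k, ‖S.X k (Φ.Z T) - S.e k‖ ≤ C * Real.exp (-(T k)))
    (heps : ∀ T k, (D.w k).eps (Φ.Z T) ≤ C * Real.exp (-|T k|))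
    (dZ : ∀ T, HasFDerivAt Φ.Z (∑ k, (ContinuousLinearMap.proj k : (K → ℝ) →L[ℝ] ℝ).smulRight
      (S.X k (Φ.Z T))) T)
    (isoe : ∀ k m, om (S.e k) (S.e m) = 0)
    (τ : K → ℝ) (hτ : ∀ k, 0 < τ k) (m : K) (z : PS J) (hz : z ∈ Cone J) :
    fderiv ℝ (S.H m) z (S.ev τ) ≤ -(τ m * (D.w m).eps z /
      (Real.cosh ((D.w m).H z / 2) ^ 2 * Real.sinh ((D.w m).H z / 2))) := by
  rw [hH m]
  refine hSL J (D.w m) (S.ev τ) (τ m) (Φ.lev m) (‖Φ.Z 0‖ + Fintype.card K * C + C)
    (fun s => Φ.Z (s • τ)) ?_ ?_ (hτ m) ?_ z hz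
  · intro j
    have h1 : (S.ev τ).1 j = ∑ k, τ k * (S.e k).1 j := by
      simp [Sys.ev, Prod.fst_sum, Finset.sum_apply]
    rw [h1]
    refine Finset.sum_nonneg fun k _ => mul_nonneg (hτ k).le ?_
    rw [he k]
    show 0 ≤ ∑ i, if (D.w k).j i = j then (1 : ℝ) else 0
    refine Finset.sum_nonneg fun i _ => ?_
    split_ifs <;> norm_num
  · rw [← he m, om_ev_right]
    refine Finset.sum_eq_zero fun k _ => ?_
    rw [isoe m k, mul_zero]
  · intro s hs
    refine ⟨Φ.mem _, Φ.level _ m, ?_, ?_⟩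
    · have h1 := SB_asym S Φ.Z dZ C hC ep τ hτ s hs
      linarith
    · have h1 := heps (s • τ) m
      have h2 : |(s • τ) m| = τ m * s := by
        have : (s • τ) m = τ m * s := by simp [mul_comm]
        rw [this, abs_of_nonneg (mul_nonneg (hτ m).le hs)]
      rw [h2] at h1
      have h3 : 0 ≤ ‖Φ.Z 0‖ + Fintype.card K * C := by positivity
      have h4 := Real.exp_pos (-(τ m * s))
      nlinarith

theorem SB_of (hBF : BF_stmt) (hEU : EU_stmt) (hEL : EL_stmt) (hBX : BX_stmt) (hXA : XA_stmt)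
    (hHB : HB_stmt) (hSL : SL_stmt) : SB_stmt := by
  intro J K _ _ _ _ D S hH he _ Φ
  choose C0 hC0 hall using fun k => SB_one hBF hEU hEL hBX hXA hHB D Φ k
  set C : ℝ := ∑ k, C0 k + 1 with hCdef
  have hC : 0 < C := by
    have : 0 ≤ ∑ k, C0 k := Finset.sum_nonneg fun k _ => (hC0 k).le
    linarith
  have hCk : ∀ k, C0 k ≤ C := by
    intro k
    have := Finset.single_le_sum (f := C0) (fun k _ => (hC0 k).le) (Finset.mem_univ k)
    linarith
  have hX : ∀ k z, S.X k z = sg (fderiv ℝ (D.w k).H z) := by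
    intro k z
    simp only [Sys.X, hH k]
  have ep : ∀ T k, ‖S.X k (Φ.Z T) - S.e k‖ ≤ C * Real.exp (-(T k)) := by
    intro T k
    rw [hX, he]
    exact (hall k T).1.trans (mul_le_mul_of_nonneg_right (hCk k) (Real.exp_pos _).le)
  have em : ∀ T k, ‖S.X k (Φ.Z T) + S.e k‖ ≤ C * Real.exp (T k) := by
    intro T k
    rw [hX, he]
    exact (hall k T).2.1.trans (mul_le_mul_of_nonneg_right (hCk k) (Real.exp_pos _).le)
  have hb : ∀ T k x y, |hs (S.H k) (Φ.Z T) x y| ≤ C * Real.exp (-|T k|) * ‖x‖ * ‖y‖ := by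
    intro T k x y
    rw [hH k]
    refine ((hall k T).2.2.1 x y).trans ?_
    exact mul_le_mul_of_nonneg_right (mul_le_mul_of_nonneg_right
      (mul_le_mul_of_nonneg_right (hCk k) (Real.exp_pos _).le) (norm_nonneg _)) (norm_nonneg _)
  have boxp : ∀ T k, Φ.lev k - om (S.e k) (Φ.Z T) ≤ C * Real.exp (-(T k)) := by
    intro T k
    rw [he]
    exact (hall k T).2.2.2.1.trans (mul_le_mul_of_nonneg_right (hCk k) (Real.exp_pos _).le)
  have boxm : ∀ T k, Φ.lev k + om (S.e k) (Φ.Z T) ≤ C * Real.exp (T k) := by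
    intro T k
    rw [he]
    exact (hall k T).2.2.2.2.1.trans (mul_le_mul_of_nonneg_right (hCk k) (Real.exp_pos _).le)
  have heps : ∀ T k, (D.w k).eps (Φ.Z T) ≤ C * Real.exp (-|T k|) := fun T k =>
    (hall k T).2.2.2.2.2.1.trans (mul_le_mul_of_nonneg_right (hCk k) (Real.exp_pos _).le)
  have hepsp : ∀ T k, 0 < (D.w k).eps (Φ.Z T) := by
    intro T k
    have h1 := (hall k T).2.2.2.2.2.2
    have h2 := Real.exp_pos (-|T k|)
    by_contra hcon
    have h3 : C0 k * (D.w k).eps (Φ.Z T) ≤ 0 :=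
      mul_nonpos_of_nonneg_of_nonpos (hC0 k).le (not_lt.1 hcon)
    linarith
  have hepsl : ∀ T k, Real.exp (-|T k|) ≤ C * (D.w k).eps (Φ.Z T) := fun T k =>
    (hall k T).2.2.2.2.2.2.trans (mul_le_mul_of_nonneg_right (hCk k) (hepsp T k).le)
  have hlev : ∀ k, 0 < Φ.lev k := by
    intro k
    have h1 := (hBF J (D.w k) (Φ.Z 0) (Φ.mem 0)).2.1
    rwa [Φ.level 0 k] at h1
  have hsinh : ∀ k, 0 < Real.sinh (Φ.lev k / 2) := fun k =>
    Real.sinh_pos_iff.2 (by linarith [hlev k])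
  have hbx : ∀ T k, (D.w k).eps (Φ.Z T) ≤
      (Φ.lev k - |om (S.e k) (Φ.Z T)|) * Real.sinh (Φ.lev k / 2) := by
    intro T k
    obtain ⟨_, _, h⟩ := hBX J (D.w k) (Φ.lev k) (hlev k)
    rw [he]
    exact (h (Φ.Z T) (Φ.mem T) (Φ.level T k)).2.2
  have box : ∀ T k, |om (S.e k) (Φ.Z T)| < Φ.lev k := by
    intro T k
    have h1 := hbx T k
    have h2 := hepsp T k
    by_contra hcon
    have h3 : (Φ.lev k - |om (S.e k) (Φ.Z T)|) * Real.sinh (Φ.lev k / 2) ≤ 0 :=
      mul_nonpos_of_nonpos_of_nonneg (by linarith [not_lt.1 hcon]) (hsinh k).le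
    linarith
  have dZ : ∀ T, HasFDerivAt Φ.Z (∑ k, (ContinuousLinearMap.proj k : (K → ℝ) →L[ℝ] ℝ).smulRight
      (S.X k (Φ.Z T))) T := by
    intro T
    have h1 := Φ.dZ T
    simp only [hX]
    exact h1
  have level : ∀ T k, S.H k (Φ.Z T) = Φ.lev k := by
    intro T k
    rw [hH k]
    exact Φ.level T k
  have iso := SB_iso S Φ.Z Φ.mem dZ Φ.lev level
  have isoe := SB_isoe S Φ.Z iso C hC ep
  have slope := SB_slope hSL D S hH he Φ C hC ep heps dZ isoe
  -- bounds uniform in the curve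
  set s0 : ℝ := ∑ k, Real.sinh (Φ.lev k / 2) + 1 with hs0
  have hs0p : 0 < s0 := by
    have : 0 ≤ ∑ k, Real.sinh (Φ.lev k / 2) := Finset.sum_nonneg fun k _ => (hsinh k).le
    linarith
  have hs0k : ∀ k, Real.sinh (Φ.lev k / 2) ≤ s0 := by
    intro k
    have := Finset.single_le_sum (f := fun k => Real.sinh (Φ.lev k / 2))
      (fun k _ => (hsinh k).le) (Finset.mem_univ k)
    linarith
  set q : K → ℝ := fun k => Real.cosh (Φ.lev k / 2) ^ 2 * Real.sinh (Φ.lev k / 2) with hq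
  have hqp : ∀ k, 0 < q k := fun k =>
    mul_pos (pow_pos (Real.cosh_pos _) 2) (hsinh k)
  set Q : ℝ := ∑ k, q k + 1 with hQ
  have hQp : 0 < Q := by
    have : 0 ≤ ∑ k, q k := Finset.sum_nonneg fun k _ => (hqp k).le
    linarith
  have hQk : ∀ k, q k ≤ Q := by
    intro k
    have := Finset.single_le_sum (f := q) (fun k _ => (hqp k).le) (Finset.mem_univ k)
    linarith
  have boxc : ∀ R : ℝ, ∃ c : ℝ, 0 < c ∧ ∀ T k, |T k| ≤ R →
      |om (S.e k) (Φ.Z T)| ≤ Φ.lev k - c := by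
    intro R
    refine ⟨Real.exp (-R) / (C * s0), by positivity, ?_⟩
    intro T k hT
    have h1 : Real.exp (-R) ≤ C * (D.w k).eps (Φ.Z T) :=
      (Real.exp_le_exp.2 (by linarith)).trans (hepsl T k)
    have h2 := hbx T k
    have h3 : (Φ.lev k - |om (S.e k) (Φ.Z T)|) * Real.sinh (Φ.lev k / 2)
        ≤ (Φ.lev k - |om (S.e k) (Φ.Z T)|) * s0 :=
      mul_le_mul_of_nonneg_left (hs0k k) (by linarith [box T k])
    have h4 : Real.exp (-R) / (C * s0) ≤ Φ.lev k - |om (S.e k) (Φ.Z T)| := by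
      rw [div_le_iff₀ (by positivity)]
      have h5 : C * (D.w k).eps (Φ.Z T) ≤ C * ((Φ.lev k - |om (S.e k) (Φ.Z T)|) * s0) :=
        mul_le_mul_of_nonneg_left (h2.trans h3) hC.le
      linarith
    linarith
  have ev_one : ∀ (z : PS J) (m k : K) (δ : ℝ),
      fderiv ℝ (S.H m) z (S.ev (fun j => (if j = k then 1 else 0) + δ))
        = fderiv ℝ (S.H m) z (S.e k) + δ * fderiv ℝ (S.H m) z (S.ev (fun _ => 1)) := by
    intro z m k δ
    have h1 : S.ev (fun j => (if j = k then 1 else 0) + δ) = S.e k + δ • S.ev (fun _ => 1) := by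
      simp only [Sys.ev, add_smul, Finset.sum_add_distrib, ite_smul, one_smul, zero_smul,
        Finset.sum_ite_eq', Finset.mem_univ, if_true, Finset.smul_sum]
    rw [h1, map_add, map_smul, smul_eq_mul]
  have neg : ∀ T m k, om (S.X m (Φ.Z T)) (S.e k) ≤ 0 := by
    intro T m k
    rw [om_X]
    set a : ℝ := fderiv ℝ (S.H m) (Φ.Z T) (S.e k) with ha
    set b : ℝ := fderiv ℝ (S.H m) (Φ.Z T) (S.ev (fun _ => 1)) with hb'
    have key : ∀ δ : ℝ, 0 < δ → a + δ * b ≤ 0 := by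
      intro δ hδ
      have h1 := slope (fun j => (if j = k then 1 else 0) + δ)
        (fun j => by
          show 0 < (if j = k then (1 : ℝ) else 0) + δ
          split_ifs <;> linarith) m (Φ.Z T) (Φ.mem T)
      rw [ev_one] at h1
      have h2 : 0 ≤ ((if m = k then (1 : ℝ) else 0) + δ) * (D.w m).eps (Φ.Z T) /
          (Real.cosh ((D.w m).H (Φ.Z T) / 2) ^ 2 * Real.sinh ((D.w m).H (Φ.Z T) / 2)) := by
        have h3 : (D.w m).H (Φ.Z T) = Φ.lev m := Φ.level T m
        rw [h3]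
        refine div_nonneg (mul_nonneg ?_ (hepsp T m).le) (hqp m).le
        split_ifs <;> linarith
      linarith
    by_contra hcon
    have ha0 : 0 < a := not_le.1 hcon
    have hb0 : 0 < |b| + 1 := by positivity
    have h1 := key (a / (2 * (|b| + 1))) (by positivity)
    have h2 : -(a / 2) ≤ a / (2 * (|b| + 1)) * b := by
      have h3 : -|b| ≤ b := neg_abs_le b
      have h4 : a / (2 * (|b| + 1)) * (-(|b| + 1)) ≤ a / (2 * (|b| + 1)) * b :=
        mul_le_mul_of_nonneg_left (by linarith) (by positivity)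
      have h5 : a / (2 * (|b| + 1)) * (-(|b| + 1)) = -(a / 2) := by
        field_simp
      linarith
    linarith
  have dneg : ∀ R : ℝ, ∃ R' c : ℝ, 0 < c ∧ ∀ T m, |T m| ≤ R → (∀ k, k ≠ m → R' ≤ |T k|) →
      om (S.X m (Φ.Z T)) (S.e m) ≤ -c := by
    intro R
    set c : ℝ := Real.exp (-R) / (2 * (C * Q)) with hc
    have hcp : 0 < c := by positivity
    set P : ℝ := 2 * Fintype.card J * (∑ k, ‖S.e k‖ + C) * C with hP
    have hsum0 : 0 ≤ ∑ k, ‖S.e k‖ := Finset.sum_nonneg fun k _ => norm_nonneg _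
    have hP0 : 0 ≤ P := by positivity
    set M : ℝ := Fintype.card K * P with hM
    have hM0 : 0 ≤ M := by positivity
    refine ⟨Real.log (M / c + 1), c, hcp, ?_⟩
    intro T m hTm hTk
    set R' : ℝ := Real.log (M / c + 1) with hR'
    have hexpR : Real.exp (-R') = (M / c + 1)⁻¹ := by
      rw [Real.exp_neg, hR', Real.exp_log (by positivity)]
    have hMR : M * Real.exp (-R') ≤ c := by
      rw [hexpR, ← div_eq_mul_inv, div_le_iff₀ (by positivity)]
      have : c * (M / c + 1) = M + c := by field_simp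
      linarith
    have hXm : ‖S.X m (Φ.Z T)‖ ≤ ∑ k, ‖S.e k‖ + C := by
      have h1 : ‖S.e m‖ ≤ ∑ k, ‖S.e k‖ :=
        Finset.single_le_sum (f := fun k => ‖S.e k‖) (fun k _ => norm_nonneg _)
          (Finset.mem_univ m)
      rcases le_total 0 (T m) with h | h
      · have h2 := ep T m
        have h3 : Real.exp (-(T m)) ≤ 1 := Real.exp_le_one_iff.2 (by linarith)
        have h4 : ‖S.X m (Φ.Z T)‖ ≤ ‖S.X m (Φ.Z T) - S.e m‖ + ‖S.e m‖ := by
          have := norm_add_le (S.X m (Φ.Z T) - S.e m) (S.e m)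
          rwa [sub_add_cancel] at this
        nlinarith
      · have h2 := em T m
        have h3 : Real.exp (T m) ≤ 1 := Real.exp_le_one_iff.2 h
        have h4 : ‖S.X m (Φ.Z T)‖ ≤ ‖S.X m (Φ.Z T) + S.e m‖ + ‖S.e m‖ := by
          have := norm_sub_le (S.X m (Φ.Z T) + S.e m) (S.e m)
          rwa [add_sub_cancel_right] at this
        nlinarith
    have hoff : ∀ k, k ≠ m → -(P * Real.exp (-R')) ≤ om (S.X m (Φ.Z T)) (S.e k) := by
      intro k hk
      have hk' := hTk k hk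
      have hcard : (0 : ℝ) ≤ 2 * Fintype.card J := by positivity
      rcases le_total 0 (T k) with h | h
      · rw [abs_of_nonneg h] at hk'
        have h1 : om (S.X m (Φ.Z T)) (S.e k) = -om (S.X m (Φ.Z T)) (S.X k (Φ.Z T) - S.e k) := by
          rw [om_sub_right, iso T m k]; ring
        have h2 := abs_om_le (S.X m (Φ.Z T)) (S.X k (Φ.Z T) - S.e k)
        have h3 : ‖S.X k (Φ.Z T) - S.e k‖ ≤ C * Real.exp (-R') :=
          (ep T k).trans (mul_le_mul_of_nonneg_left (Real.exp_le_exp.2 (by linarith)) hC.le)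
        have h4 : 2 * Fintype.card J * ‖S.X m (Φ.Z T)‖ * ‖S.X k (Φ.Z T) - S.e k‖
            ≤ 2 * Fintype.card J * (∑ k, ‖S.e k‖ + C) * (C * Real.exp (-R')) :=
          mul_le_mul (mul_le_mul_of_nonneg_left hXm hcard) h3 (norm_nonneg _) (by positivity)
        have h5 := (le_abs_self _).trans (h2.trans h4)
        rw [h1, hP]
        linarith
      · rw [abs_of_nonpos h] at hk'
        have h1 : om (S.X m (Φ.Z T)) (S.e k) = om (S.X m (Φ.Z T)) (S.X k (Φ.Z T) + S.e k) := by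
          rw [om_add_right, iso T m k]; ring
        have h2 := abs_om_le (S.X m (Φ.Z T)) (S.X k (Φ.Z T) + S.e k)
        have h3 : ‖S.X k (Φ.Z T) + S.e k‖ ≤ C * Real.exp (-R') :=
          (em T k).trans (mul_le_mul_of_nonneg_left (Real.exp_le_exp.2 (by linarith)) hC.le)
        have h4 : 2 * Fintype.card J * ‖S.X m (Φ.Z T)‖ * ‖S.X k (Φ.Z T) + S.e k‖
            ≤ 2 * Fintype.card J * (∑ k, ‖S.e k‖ + C) * (C * Real.exp (-R')) :=
          mul_le_mul (mul_le_mul_of_nonneg_left hXm hcard) h3 (norm_nonneg _) (by positivity)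
        have h5 := (neg_le_abs _).trans (h2.trans h4)
        rw [h1, hP]
        linarith
    have h1 := slope (fun _ => 1) (fun _ => one_pos) m (Φ.Z T) (Φ.mem T)
    have hHm : (D.w m).H (Φ.Z T) = Φ.lev m := Φ.level T m
    rw [hHm, one_mul] at h1
    have h2 : 2 * c ≤ (D.w m).eps (Φ.Z T) /
        (Real.cosh (Φ.lev m / 2) ^ 2 * Real.sinh (Φ.lev m / 2)) := by
      have h3 : Real.exp (-R) ≤ C * (D.w m).eps (Φ.Z T) :=
        (Real.exp_le_exp.2 (by linarith)).trans (hepsl T m)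
      have h4 : 2 * c = Real.exp (-R) / (C * Q) := by
        rw [hc]; field_simp
      rw [h4, div_le_div_iff₀ (by positivity) (hqp m)]
      have h5 : Real.exp (-R) * q m ≤ (C * (D.w m).eps (Φ.Z T)) * Q :=
        mul_le_mul h3 (hQk m) (hqp m).le (mul_nonneg hC.le (hepsp T m).le)
      calc Real.exp (-R) * (Real.cosh (Φ.lev m / 2) ^ 2 * Real.sinh (Φ.lev m / 2))
          ≤ (C * (D.w m).eps (Φ.Z T)) * Q := h5
        _ = (D.w m).eps (Φ.Z T) * (C * Q) := by ring
    rw [← om_X, om_ev_right] at h1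
    have h6 : ∑ k, (1 : ℝ) * om (S.X m (Φ.Z T)) (S.e k)
        = om (S.X m (Φ.Z T)) (S.e m) + ∑ k ∈ Finset.univ.erase m, om (S.X m (Φ.Z T)) (S.e k) := by
      simp only [one_mul]
      exact (Finset.add_sum_erase Finset.univ (fun k => om (S.X m (Φ.Z T)) (S.e k))
        (Finset.mem_univ m)).symm
    rw [h6] at h1
    have h7 : -(M * Real.exp (-R')) ≤ ∑ k ∈ Finset.univ.erase m, om (S.X m (Φ.Z T)) (S.e k) := by
      have h8 : ∑ _k ∈ Finset.univ.erase m, -(P * Real.exp (-R'))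
          ≤ ∑ k ∈ Finset.univ.erase m, om (S.X m (Φ.Z T)) (S.e k) :=
        Finset.sum_le_sum fun k hk => hoff k (Finset.ne_of_mem_erase hk)
      rw [Finset.sum_const, nsmul_eq_mul] at h8
      have h9 : ((Finset.univ.erase m).card : ℝ) ≤ Fintype.card K := by
        exact_mod_cast Finset.card_le_univ _
      have h10 : 0 ≤ P * Real.exp (-R') := mul_nonneg hP0 (Real.exp_pos _).le
      have h11 : ((Finset.univ.erase m).card : ℝ) * (P * Real.exp (-R'))
          ≤ Fintype.card K * (P * Real.exp (-R')) := mul_le_mul_of_nonneg_right h9 h10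
      have h12 : Fintype.card K * (P * Real.exp (-R')) = M * Real.exp (-R') := by rw [hM]; ring
      linarith
    linarith
  exact ⟨{ Z := Φ.Z
           mem := Φ.mem
           dZ := dZ
           lev := Φ.lev
           level := level
           C := C
           C_pos := hC
           ep := ep
           em := em
           hb := hb
           box := box
           boxp := boxp
           boxm := boxm
           boxc := boxc
           neg := neg
           dneg := dneg }, rfl⟩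

end Pool.Agent.helper73.AD
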